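import Pool.Agent.U863.FK.Main

/-!
# Extensions with kernels of finitary matrices and finitary isometries over arbitrary rings

`C` is any class of groups with the closure properties `ClosedE C`: it contains `ℤ`, it is closed
under subgroups, finite products, free products, overgroups of finite index and directed colimits, and
it satisfies the extension criterion. All this is known for the class of the groups whose wreath
products with finite groups satisfy the K-theoretic Farrell–Jones conjecture with coefficients.

Let `R` be any ring, `M` an `R`-module and `φ` any function of `k` variables in `M` with values in a
commutative monoid and with `φ 0 = 0`. For a set `I` let `Isom R φ I` be the group of the automorphisms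
of the direct sum of copies of `M` indexed by `I` which preserve `∑ i, φ (v₁ i, ..., v_k i)`. For
instance, for `φ = 0` and `M = R` these are the general linear groups; for a sesquilinear or a
quadratic form `φ` on `M` they are the isometry groups of the orthogonal sums of copies of the form
(orthogonal, symplectic and unitary groups over rings with involution).

Theorem. Suppose that the groups `Isom R φ {1, ..., n}` are in `C` for all `n`. Let `I` be any set and
let a group `G` act on the direct sum indexed by `I` by isometries with finite rows and columns
(`BiFinite`). Let `N` be a normal subgroup of `G` which acts faithfully and by finitary isometries, each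
acting on finitely many coordinates only. If `G ⧸ N` is in `C`, then `G` is in `C`.

For example, if all `GL_n(R)` are in `C` (they are known to be in the class of Farrell–Jones groups for
`R` a ring of integers in a number field or a field algebraic over `ℚ` or over `F_p(t)`, for instance),
then a group `G` of invertible infinite matrices over `R` with finite rows and columns, for instance
of banded matrices, is in `C` if its quotient by its finitary matrices is in `C`. This applies to
`GL_m` of the Jacobson algebra `R⟨x, y | y x = 1⟩`, whose quotient is contained in `GL_m(R[t, t⁻¹])`. The action of `G` need not be faithful and the
extension need not split. In the starting library there is the case of vector spaces over fields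
without a form (`MP_490288_al.LocallySemisimpleKernels`) and the case in which `G` permutes the
coordinates (`S_NOM`).

Outline of the proof. Let `P` be the group of the finitary isometries of the sum of two copies of the
module; it is a directed union of groups of finite rank, so it is in `C`. Let `g` in `G` act on the
first copy, `g ⊕ 1`, and let `E` be a finite subset of `N` and `J` a finite set of coordinates outside
which `E` does nothing. The swap `τ` of the coordinates in `J` of the two copies is in `P` and
conjugates `E` to a set which acts on the second copy only, and so commutes with `g ⊕ 1`. Therefore
the commutator `p = [g ⊕ 1, τ⁻¹]`, which is in `P` because `P` is normalized by `g ⊕ 1`, satisfies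
`p x p⁻¹ = g x g⁻¹` for `x` in `E`. So conjugations by elements of `G` on finite subsets of `N` are
realized in the group `P` in `C`, and the realization criterion of the starting library applies.
-/

set_option autoImplicit false

namespace Pool.Agent.Results.MP_e40716_gt.FinitaryKernels

open Pool.Agent.Y110.FJ Pool.Agent.U863.FK

theorem result (C : ∀ (G : Type) [Group G], Prop) (hC : ClosedE C)
    (R M S : Type) [Ring R] [AddCommGroup M] [Module R M] [AddCommMonoid S] (k : ℕ)
    (φ : (Fin k → M) → S) (hφ : φ 0 = 0) (hU : ∀ n : ℕ, C (Isom R φ (Fin n)))
    (I G : Type) [Group G] (N : Subgroup G) [N.Normal] (hQ : C (G ⧸ N))
    (ρ : G →* ((I →₀ M) ≃ₗ[R] (I →₀ M))) (hρ : ∀ g, ρ g ∈ Isom R φ I ∧ BiFinite (ρ g))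
    (hN : ∀ n ∈ N, Finitary (ρ n) ∧ (ρ n = 1 → n = 1)) : C G :=
  finitary_main C hC R M S k φ hφ hU I G N hQ ρ hρ hN

end Pool.Agent.Results.MP_e40716_gt.FinitaryKernels
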