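import Pool.Agent.U74.FA.Main

/-!
# Automorphism groups of free products of three groups in the Farrell–Jones class

`C` is any class of groups with the closure properties `ClosedE C` which contains the groups `F ⋊ ℤ` for
all free groups `F` and all automorphisms of `F`. All this is published for the class of the groups
whose wreath products with finite groups satisfy the K-theoretic Farrell–Jones conjecture with
coefficients in additive categories (`F ⋊ ℤ`: Bestvina, Fujiwara, Wigglesworth).

Let `W = G₀ * G₁ * G₂` be the free product of three nontrivial groups. `symmetricGroup G` is the group
of automorphisms of `W` generated by

* the partial conjugations: one factor is conjugated by an element of another factor and the two other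
  factors are fixed pointwise;
* the automorphisms which map each factor onto a factor (automorphisms of the factors and
  permutations of isomorphic factors).

It contains the inner automorphisms. By the theorem of Fouxe-Rabinovitch it is the group of all
automorphisms of `W` if the factors are freely indecomposable and not infinite cyclic (this is not used
and not proved here). The holomorph of a group `H` is `H ⋊ Aut(H)`.

**Theorem.** `symmetricGroup G` is in `C` if and only if the holomorphs of the three factors are in `C`.

For instance the factors may be finite groups, free abelian groups of finite rank (the holomorph is
`ℤⁿ ⋊ GL_n(ℤ)`), or, by published theorems, hyperbolic surface groups. It seems not to be known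
whether automorphism groups of free products are in the Farrell–Jones class, in general.

Outline of the proof. The cyclic partial conjugations (of `G₁` by `G₀`, of `G₂` by `G₁`, of `G₀` by `G₂`) define
a homomorphism `α : W → Aut(W)`, because there is no relation to check in a free product. Together
with the inner automorphisms and the automorphisms of the factors one gets a homomorphism from
`W ⋊ (W ⋊ Π Aut(G_i))` to `Aut(W)`. Its image has finite index in `symmetricGroup G`. It is injective: the
automorphism `α(w)` conjugates the factors by elements `y_i`; if `w` is a reduced word which ends with a letter
of `G_k`, then in the Bass-Serre tree of `W` the vertex `y_k G_k` lies on the geodesic between the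
other two vertices `y_i G_i`, `y_j G_j` (in the proof: `y_k⁻¹ y_i` and `y_k⁻¹ y_j` have reduced forms with
different first letters `a, b ∈ G_k`). This is shown by induction on the length of `w`, and it does
not happen for inner automorphisms. Finally `C` contains the semidirect products of a free product with
a group in `C` which preserves the conjugacy classes of the factors, if the holomorphs of the factors
are in `C` (from `MP_490288_al.FreeProductExtensions` and the realization criterion).
-/

set_option autoImplicit false

namespace Pool.Agent.Results.MP_e40716_gt.FreeProductAutomorphisms

open Monoid.CoprodI (of)
open Pool.Agent.Y110.FJ (ClosedE)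

/-- the free product of three groups -/
abbrev FreeProduct (G : Fin 3 → Type) [∀ i, Group (G i)] : Type := Monoid.CoprodI G

/-- the holomorph of a group -/
abbrev Holomorph (H : Type) [Group H] : Type := H ⋊[MonoidHom.id (MulAut H)] MulAut H

variable {G : Fin 3 → Type} [∀ i, Group (G i)]

/-- `φ` conjugates the factor `s` by an element `h` of another factor `t`, and fixes the other factors
pointwise -/
def IsPartialConjugation (φ : MulAut (FreeProduct G)) : Prop :=
  ∃ (t s : Fin 3) (h : G t), t ≠ s ∧ (∀ g : G s, φ (of g) = of h * of g * (of h)⁻¹) ∧
    ∀ i, i ≠ s → ∀ g : G i, φ (of g) = of g

/-- `φ` maps each factor isomorphically onto a factor -/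
def IsFactorAutomorphism (φ : MulAut (FreeProduct G)) : Prop :=
  ∃ (π : Equiv.Perm (Fin 3)) (e : ∀ i, G i ≃* G (π i)), ∀ (i : Fin 3) (g : G i),
    φ (of g) = of (e i g)

variable (G) in
/-- the group generated by the partial conjugations and the factor automorphisms -/
def symmetricGroup : Subgroup (MulAut (FreeProduct G)) :=
  Subgroup.closure {φ | IsPartialConjugation φ ∨ IsFactorAutomorphism φ}

/-- Let `C` be a class of groups with the closure properties `ClosedE C` which contains the groups
`F ⋊ ℤ` for all free groups `F` and all automorphisms of `F`. The group of automorphisms of the free
product of three nontrivial groups generated by the partial conjugations and the factor automorphisms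
is in `C` if and only if the holomorphs of the three groups are in `C`. -/
theorem result (C : ∀ (G : Type) [Group G], Prop) (hC : ClosedE C)
    (hF : ∀ (X : Type) (α : MulAut (FreeGroup X)),
      C (FreeGroup X ⋊[zpowersHom (MulAut (FreeGroup X)) α] Multiplicative ℤ))
    (G : Fin 3 → Type) [∀ i, Group (G i)] [hG : ∀ i, Nontrivial (G i)] :
    C ↥(symmetricGroup G) ↔ ∀ i, C (Holomorph (G i)) :=
  U74.FA.main hC hF hG

end Pool.Agent.Results.MP_e40716_gt.FreeProductAutomorphisms
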