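import Pool.Agent.U385.RT.BSg

/-!
# One-sided relations along oriented graphs and the K-theoretic Farrell-Jones conjecture

`C` is any class of groups with the closure properties `ClosedE C`, all of which are known for the
class of the groups whose wreath products with finite groups satisfy the K-theoretic Farrell-Jones
conjecture with coefficients in additive categories. This class contains the metabelian groups, since it
contains the solvable groups (Wegner).

Let `V` be a linearly ordered set of any cardinality, let `Γ` be a graph without triangles on `V`, and
let `G v` be groups. For each edge `{u, v}`, `u < v`, let `R u v` be a set of elements of the free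
product `G u * G v` which become trivial if the upper group `G v` is killed; they need not
become trivial if `G u` is killed. Let `Q` be the free product of all `G v` modulo these relations.
Suppose that (`OneSided`)

* the groups of the edges `(G u * G v) / ⟨⟨R u v⟩⟩`, `u < v`, are in `C`, and
* each `G v` embeds in a group `P` of `C` such that for each edge `{u, v}`, `u < v`, there is a
  homomorphism `G u → P` which is compatible with the relations `R u v`.

Then `Q` is in `C`. The main example: let `D` be an oriented graph without directed cycles, whose
underlying graph has no triangles. Then the group with generators the vertices and relations
`u v ^ p(u, v) u⁻¹ = v ^ q(u, v)` for all arrows `u → v`, where `p` and `q` are arbitrary non-zero integers,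
is in `C`. For one arrow these are the Baumslag-Solitar groups; for `p = q = 1` the right-angled Artin
groups of graphs without triangles. For directed cycles (Higman's groups) nothing is said.

Outline of the proof. For a finite set `S` of vertices let `Q S` be the group with the generators and
relations in `S`. For subsets which are closed downwards there are retractions. It follows by
induction that the subgroups generated by disjoint sets meet trivially, and, with the normal form in
amalgamated products, that the subgroups generated by independent sets are free products. If `b` is the
largest element of `S` then `Q S` is the amalgamated product of `Q (S - b)` and the group `Q (K + b)`,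
`K` the set of the neighbours of `b`, over `Q K`, which is a free product since `K` is independent, and
there is a retraction to the first factor. The group `Q (K + b)` is the amalgamated product of the groups of
the edges of `b` over `G b`, and has a homomorphism to `P` which is injective on `G b`.
-/

set_option autoImplicit false

namespace Pool.Agent.Results.MP_e40716_gt.OneSidedRelations

open Pool.Agent.Y110.FJ (ClosedE)
open Pool.Agent.U385.RT (OneSided oneRel bsRel bs_main)

/-- Let `C` be a class of groups with the closure properties `ClosedE C` which contains the metabelian
groups. (1) Let `Γ` be a graph without triangles on a linearly ordered set `V`, `G v` groups, and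
`R u v`, for the edges with `u < v`, sets of elements of `G u * G v` which become trivial if
`G v` is killed, such that the edge groups are in `C` and each `G v` embeds in a group in `C`
compatibly with the relations `R u v`, `u < v` (`OneSided`). Then the free product of the `G v` modulo all
these relations is in `C`. (2) Let `D` be an oriented graph without directed cycles and without
triangles. The group with generators the vertices of `D` and relations `u v ^ p(u, v) u⁻¹ = v ^ q(u, v)`,
`u → v`, with non-zero integers `p(u, v)` and `q(u, v)`, is in `C`. -/
theorem result (C : ∀ (G : Type) [Group G], Prop) (hC : ClosedE C)
    (hM : ∀ (G : Type) [Group G], derivedSeries G 2 = ⊥ → C G) :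
    (∀ (V : Type) [LinearOrder V] (Γ : SimpleGraph V) (G : V → Type) [∀ v, Group (G v)]
      (R : ∀ u v, Set (Monoid.Coprod (G u) (G v))), OneSided C Γ R →
        C (Monoid.CoprodI G ⧸ Subgroup.normalClosure (oneRel Γ R))) ∧
    (∀ (V : Type) (D : V → V → Prop), (∀ v, ¬ Relation.TransGen D v v) →
      (∀ u v w, (D u v ∨ D v u) → (D v w ∨ D w v) → ¬ (D u w ∨ D w u)) →
      ∀ p q : V → V → ℤ, (∀ u v, D u v → p u v ≠ 0) → (∀ u v, D u v → q u v ≠ 0) →
        C (PresentedGroup (bsRel D p q))) :=
  ⟨fun _ _ _ _ _ _ h => h.main hC, fun _ D hac htri p q hp hq =>
    bs_main hC hM D hac htri p q hp hq⟩

end Pool.Agent.Results.MP_e40716_gt.OneSidedRelations
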