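import Pool.Agent.U731.SG.IdemB
import Pool.Agent.U731.SG.Proj

set_option autoImplicit false
set_option linter.unusedSectionVars false
set_option linter.style.haveILetI false

/-! Modules and projections over group rings of arbitrary groups which come from virtually cyclic or
finite subgroups.

The support span of a square matrix over `RG` (`R` any ring) is at most `s` if the matrix is supported,
up to identities on the diagonal, in a hermitian complex matrix whose nonzero coefficients, except those
of the identity on the diagonal, have absolute value at least one and whose spectrum on `ℓ²` lies in an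
interval of length `s`. Modules with a square presentation of support span at most `3 √2` (bound
included) are direct sums of modules induced from virtually cyclic subgroups, and from finite subgroups
if the span is less than `4`; idempotent matrices of this kind are block sums. Projections over `ℂG`
whose coefficients off the diagonal identities are at least `1 / (3 √2)` (more than `1 / 4`) come from
virtually cyclic (finite) subgroups. For each larger span all finitely presented modules over all group
rings have, after adding a free module, such a presentation. -/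

namespace Pool.Agent.Results.MP_e40716_gt.SquarePresentations

open ComplexConjugate Matrix

/-- The values of `⟨xS, x⟩` on the unit vectors `x` of `ℓ²(G)^n` with finite support `T` lie in an
interval `[a, a + s]`; for hermitian `S` this says that the spectrum of right multiplication by `S`
lies in it. -/
def SpanLE {G : Type} [Group G] {n : ℕ} (S : Matrix (Fin n) (Fin n) (MonoidAlgebra ℂ G))
    (s : ℝ) : Prop :=
  ∃ a : ℝ, ∀ (T : Finset (Fin n × G)) (x : Fin n × G → ℂ),
    a * ∑ p ∈ T, ‖x p‖ ^ 2
      ≤ (∑ p ∈ T, ∑ q ∈ T, x p * (S p.1 q.1).coeff (p.2⁻¹ * q.2) * conj (x q)).re ∧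
    (∑ p ∈ T, ∑ q ∈ T, x p * (S p.1 q.1).coeff (p.2⁻¹ * q.2) * conj (x q)).re
      ≤ (a + s) * ∑ p ∈ T, ‖x p‖ ^ 2

/-- The support of `M` is contained in the support of a hermitian complex matrix `S` and the
identities on the diagonal; the nonzero coefficients of `S`, except those of the identity on the
diagonal, have absolute value at least one, and the spectrum of `S` lies in an interval of length
`s`. -/
def SupportSpanLE {R : Type} [Ring R] {G : Type} [Group G] {n : ℕ}
    (M : Matrix (Fin n) (Fin n) (MonoidAlgebra R G)) (s : ℝ) : Prop :=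
  ∃ S : Matrix (Fin n) (Fin n) (MonoidAlgebra ℂ G),
    (∀ i j g, (S j i).coeff g⁻¹ = conj ((S i j).coeff g)) ∧
    (∀ i j g, (S i j).coeff g ≠ 0 → (i = j ∧ g = 1) ∨ 1 ≤ ‖(S i j).coeff g‖) ∧
    (∀ i j g, (M i j).coeff g ≠ 0 → (i = j ∧ g = 1) ∨ (S i j).coeff g ≠ 0) ∧ SpanLE S s

/-- The subgroup `C` is virtually cyclic: it contains a cyclic subgroup of finite index. -/
def VirtuallyCyclic {G : Type} [Group G] (C : Subgroup G) : Prop :=
  ∃ z : C, (Subgroup.zpowers z).FiniteIndex

/-- The cokernel of the matrix `M`: the free module of rank `n` modulo the rows of `M`. -/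
abbrev Cok {A : Type} [Ring A] {n : ℕ} (M : Matrix (Fin n) (Fin n) A) : Type :=
  (Fin n → A) ⧸ LinearMap.range M.vecMulLinear

/-- The module `N` is a finite direct sum of modules induced from subgroups with the property `Q`: each
of them is presented by a square matrix `B b` over the group ring of a subgroup `C b`. If `N` is
projective, then so are the modules over the group rings of these subgroups. -/
def Induced (R : Type) [Ring R] {G : Type} [Group G] (Q : Subgroup G → Prop)
    (N : Type) [AddCommGroup N] [Module (MonoidAlgebra R G) N] : Prop :=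
  ∃ (k : ℕ) (C : Fin k → Subgroup G) (q : Fin k → ℕ)
    (B : ∀ b, Matrix (Fin (q b)) (Fin (q b)) (MonoidAlgebra R (C b))), (∀ b, Q (C b)) ∧
    Nonempty (N ≃ₗ[MonoidAlgebra R G]
      ∀ b, Cok ((B b).map (MonoidAlgebra.mapDomainRingHom R (C b).subtype))) ∧
    (Module.Projective (MonoidAlgebra R G) N →
      ∀ b, Module.Projective (MonoidAlgebra R (C b)) (Cok (B b)))

/-- The block sum of the matrices `θ a` over the group rings of the subgroups `C a`, induced up to
`RG`; the block `a` lives on the indices `i` with `ρ i = a`. -/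
noncomputable def blockSum {R : Type} [Ring R] {G : Type} [Group G] {n : ℕ} (ρ : Fin n → Fin n)
    (C : Fin n → Subgroup G)
    (θ : ∀ a, Matrix {i // ρ i = a} {i // ρ i = a} (MonoidAlgebra R (C a))) :
    Matrix (Fin n) (Fin n) (MonoidAlgebra R G) := fun i j =>
  if h : ρ j = ρ i then MonoidAlgebra.mapDomain (C (ρ i)).subtype (θ (ρ i) ⟨i, rfl⟩ ⟨j, h⟩) else 0

/-- For a diagonal matrix `D` of group elements, `D A D⁻¹` is a block sum of idempotent matrices over the
group rings of subgroups with the property `Q`. -/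
def IdempotentBlocks {R : Type} [Ring R] {G : Type} [Group G] {n : ℕ} (Q : Subgroup G → Prop)
    (A : Matrix (Fin n) (Fin n) (MonoidAlgebra R G)) : Prop :=
  ∃ (ρ : Fin n → Fin n) (u : Fin n → G) (C : Fin n → Subgroup G)
    (θ : ∀ a, Matrix {i // ρ i = a} {i // ρ i = a} (MonoidAlgebra R (C a))), (∀ a, Q (C a)) ∧
    (Matrix.diagonal fun i => MonoidAlgebra.single (u i) (1 : R)) * A *
      (Matrix.diagonal fun i => MonoidAlgebra.single (u i)⁻¹ (1 : R)) = blockSum ρ C θ ∧
    ∀ a, θ a * θ a = θ a

/-- `A` is a hermitian idempotent matrix over `ℂG` whose nonzero coefficients, except those of the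
identity on the diagonal, have absolute value at least `δ`. -/
def Projection {G : Type} [Group G] {n : ℕ} (A : Matrix (Fin n) (Fin n) (MonoidAlgebra ℂ G))
    (δ : ℝ) : Prop :=
  A * A = A ∧ (∀ i j g, (A j i).coeff g⁻¹ = conj ((A i j).coeff g)) ∧
  ∀ i j g, (A i j).coeff g ≠ 0 → (i = j ∧ g = 1) ∨ δ ≤ ‖(A i j).coeff g‖

/-- `G` is any group (torsion allowed), `R` any ring.
1. If `(RG)^m ⊕ P` has a square presentation of support span at most `3 √2`, then it is a finite direct
sum of modules induced from virtually cyclic subgroups, by projective modules if `P` is projective; if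
the support span is less than `4`, then the subgroups are finite.
2. The idempotent matrices over `RG` of support span at most `3 √2` (less than `4`) are, up to
conjugation by a diagonal matrix of group elements, block sums of idempotent matrices over the group
rings of virtually cyclic (finite) subgroups.
3. The same holds for the hermitian idempotent matrices over `ℂG` whose nonzero coefficients, except
those of the identity on the diagonal, have absolute value at least `1 / (3 √2)` (more than `1 / 4`).
4. Let `R` be nontrivial, `s > 3 √2` and let `S` be a set of additive generators of `R` with `1 ∈ S`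
and `-S = S`. For each finitely presented module `P` some `(RG)^m ⊕ P` is presented by a square matrix
with coefficients in `S ∪ {0}` and support span at most `s`. -/
theorem result (R : Type) [Ring R] (G : Type) [Group G] :
    (∀ (P : Type) [AddCommGroup P] [Module (MonoidAlgebra R G) P] (m n : ℕ)
      (M : Matrix (Fin n) (Fin n) (MonoidAlgebra R G)) (s : ℝ),
      Nonempty (((Fin m → MonoidAlgebra R G) × P) ≃ₗ[MonoidAlgebra R G] Cok M) →
      SupportSpanLE M s →
      (s ^ 2 ≤ 18 → Induced R (VirtuallyCyclic (G := G)) ((Fin m → MonoidAlgebra R G) × P)) ∧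
      (s < 4 → Induced R (fun C : Subgroup G => Finite C) ((Fin m → MonoidAlgebra R G) × P))) ∧
    (∀ (n : ℕ) (A : Matrix (Fin n) (Fin n) (MonoidAlgebra R G)) (s : ℝ), A * A = A →
      SupportSpanLE A s →
      (s ^ 2 ≤ 18 → IdempotentBlocks VirtuallyCyclic A) ∧
      (s < 4 → IdempotentBlocks (fun C => Finite C) A)) ∧
    (∀ (n : ℕ) (A : Matrix (Fin n) (Fin n) (MonoidAlgebra ℂ G)) (δ : ℝ), Projection A δ →
      (1 / (3 * Real.sqrt 2) ≤ δ → IdempotentBlocks VirtuallyCyclic A) ∧
      (1 / 4 < δ → IdempotentBlocks (fun C => Finite C) A)) ∧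
    (Nontrivial R → ∀ S : Set R, ((1 : R) ∈ S ∧ (∀ r ∈ S, -r ∈ S) ∧ AddSubgroup.closure S = ⊤) →
      ∀ s : ℝ, 0 < s → 18 < s ^ 2 →
      ∀ (P : Type) [AddCommGroup P] [Module (MonoidAlgebra R G) P],
      Module.FinitePresentation (MonoidAlgebra R G) P →
      ∃ (m n : ℕ) (M : Matrix (Fin n) (Fin n) (MonoidAlgebra R G)),
        Nonempty (((Fin m → MonoidAlgebra R G) × P) ≃ₗ[MonoidAlgebra R G] Cok M) ∧
        SupportSpanLE M s ∧ ∀ i j g, (M i j).coeff g ≠ 0 → (M i j).coeff g ∈ S) := by
  refine ⟨?_, ?_, ?_, ?_⟩
  · rintro P _ _ m n M s ⟨φ⟩ hM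
    have key : ∀ Q : Subgroup G → Prop, (∃ (ρ : Fin n → Fin n) (u : Fin n → G)
        (C : Fin n → Subgroup G), (∀ a, Q (C a)) ∧
        ∀ i j g, (M i j).coeff g ≠ 0 → ρ i = ρ j ∧ u i * g * (u j)⁻¹ ∈ C (ρ i)) →
        Induced R Q ((Fin m → MonoidAlgebra R G) × P) := by
      rintro Q ⟨ρ, u, C, hC, hst⟩
      obtain ⟨q, B, h1, h2⟩ := U731.SG.modules_of_struct R G _ n M φ ρ u C hst
      exact ⟨n, C, q, B, hC, h1, h2⟩
    exact ⟨fun hs => key _ (U731.SG.smallSpan_vc s hs M hM),
      fun hs => key _ (U731.SG.smallSpan_fin s hs M hM)⟩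
  · intro n A s hA hM
    have key : ∀ Q : Subgroup G → Prop, (∃ (ρ : Fin n → Fin n) (u : Fin n → G)
        (C : Fin n → Subgroup G), (∀ a, Q (C a)) ∧
        ∀ i j g, (A i j).coeff g ≠ 0 → ρ i = ρ j ∧ u i * g * (u j)⁻¹ ∈ C (ρ i)) →
        IdempotentBlocks Q A := by
      rintro Q ⟨ρ, u, C, hC, hst⟩
      obtain ⟨θ, h1, h2⟩ := U731.SG.idem_blocks A hA ρ u C hst
      exact ⟨ρ, u, C, θ, hC, h1, h2⟩
    exact ⟨fun hs => key _ (U731.SG.smallSpan_vc s hs A hM),
      fun hs => key _ (U731.SG.smallSpan_fin s hs A hM)⟩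
  · rintro n A δ ⟨hA, hherm, hbig⟩
    have h2 : (0 : ℝ) < Real.sqrt 2 := Real.sqrt_pos.2 (by norm_num)
    have h3 : Real.sqrt 2 ^ 2 = 2 := Real.sq_sqrt (by norm_num)
    have key : ∀ Q : Subgroup G → Prop, (∃ (ρ : Fin n → Fin n) (u : Fin n → G)
        (C : Fin n → Subgroup G), (∀ a, Q (C a)) ∧
        ∀ i j g, (A i j).coeff g ≠ 0 → ρ i = ρ j ∧ u i * g * (u j)⁻¹ ∈ C (ρ i)) →
        IdempotentBlocks Q A := by
      rintro Q ⟨ρ, u, C, hC, hst⟩
      obtain ⟨θ, h1, h2⟩ := U731.SG.idem_blocks A hA ρ u C hst
      exact ⟨ρ, u, C, θ, hC, h1, h2⟩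
    constructor
    · intro hδ
      have h4 : (0 : ℝ) < 1 / (3 * Real.sqrt 2) := by positivity
      have h5 : 1 ≤ 18 * δ ^ 2 := by
        have h6 : (1 / (3 * Real.sqrt 2)) ^ 2 ≤ δ ^ 2 := by gcongr
        rw [div_pow, mul_pow, h3] at h6
        linarith
      exact key _ ((U731.SG.struct_idem hherm hA δ (h4.trans_le hδ) hbig).1 h5)
    · intro hδ
      exact key _ ((U731.SG.struct_idem hherm hA δ (by linarith) hbig).2 (by linarith))
  · rintro hnt S ⟨h1, h2, h3⟩ s hs0 hs P _ _ hP
    obtain ⟨m, n, M, h4, h5, h6⟩ := U731.SG.sym_pres ⟨h1, h2, h3⟩ _ hP s hs0 hs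
    exact ⟨m, n, M, h6, h5, h4⟩

end Pool.Agent.Results.MP_e40716_gt.SquarePresentations
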